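import Pool.Agent.R508.SLLaurent

namespace Pool.Agent.Results.MP_db1407_al.NoMinimalNormal

open Topology
open Pool.Agent.R508.SLLaurent (GoodW exists_good)

/-- A topological group is compactly generated if some compact subset generates it. -/
def CompactlyGenerated (G : Type) [Group G] [TopologicalSpace G] : Prop :=
  ∃ C : Set G, IsCompact C ∧ Subgroup.closure C = ⊤

/-- `G ⧸ H` is an irreducible coset space: `H` is maximal among the proper closed subgroups. -/
def IrreducibleCosetSpace {G : Type} [Group G] [TopologicalSpace G] (H : Subgroup G) : Prop :=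
  IsClosed (H : Set G) ∧ H ≠ ⊤ ∧
    ∀ K : Subgroup G, IsClosed (K : Set G) → H ≤ K → K = H ∨ K = ⊤

/-- `G ⧸ H` is faithful: the intersection of the conjugates of `H` is trivial. -/
def Faithful {G : Type} [Group G] (H : Subgroup G) : Prop :=
  ∀ x : G, (∀ g : G, g * x * g⁻¹ ∈ H) → x = 1

/-- `M` is a minimal nontrivial closed normal subgroup. -/
def IsMinimalClosedNormal {G : Type} [Group G] [TopologicalSpace G] (M : Subgroup G) : Prop :=
  M.Normal ∧ IsClosed (M : Set G) ∧ M ≠ ⊥ ∧
    ∀ N : Subgroup G, N.Normal → IsClosed (N : Set G) → N ≤ M → N = ⊥ ∨ N = M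

/-- Sequences indexed by the integers together with an integer. -/
@[ext] structure Sh (W : Type) where
  x : ℤ → W
  j : ℤ

section

variable {W : Type} [Group W]

instance : Mul (Sh W) := ⟨fun a b => ⟨fun n => a.x n * b.x (n - a.j), a.j + b.j⟩⟩
instance : One (Sh W) := ⟨⟨fun _ => 1, 0⟩⟩
instance : Inv (Sh W) := ⟨fun a => ⟨fun n => (a.x (n + a.j))⁻¹, -a.j⟩⟩

theorem mul_x (a b : Sh W) (n : ℤ) : (a * b).x n = a.x n * b.x (n - a.j) := rfl
theorem mul_j (a b : Sh W) : (a * b).j = a.j + b.j := rfl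
theorem one_x (n : ℤ) : (1 : Sh W).x n = 1 := rfl
theorem one_j : (1 : Sh W).j = 0 := rfl
theorem inv_x (a : Sh W) (n : ℤ) : (a⁻¹).x n = (a.x (n + a.j))⁻¹ := rfl
theorem inv_j (a : Sh W) : (a⁻¹).j = -a.j := rfl

/-- The unrestricted wreath product of `W` with the integers. -/
instance : Group (Sh W) where
  mul_assoc a b c := by
    apply Sh.ext
    · funext n
      simp only [mul_x, mul_j, mul_assoc]
      congr 3
      ring
    · simp only [mul_j, add_assoc]
  one_mul a := by
    apply Sh.ext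
    · funext n
      simp only [mul_x, one_x, one_j, one_mul, sub_zero]
    · simp only [mul_j, one_j, zero_add]
  mul_one a := by
    apply Sh.ext
    · funext n
      simp only [mul_x, one_x, mul_one]
    · simp only [mul_j, one_j, add_zero]
  inv_mul_cancel a := by
    apply Sh.ext
    · funext n
      simp only [mul_x, inv_x, inv_j, one_x, sub_neg_eq_add, inv_mul_cancel]
    · simp only [mul_j, inv_j, one_j, neg_add_cancel]

/-- The local direct product of the copies `W_n` of `W` with respect to `K` (`n ≥ 0`) and `1`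
(`n < 0`), extended by the shift. -/
def Gr (K : Subgroup W) : Subgroup (Sh W) where
  carrier := {a | ∃ N : ℤ, 0 ≤ N ∧ (∀ n, n < -N → a.x n = 1) ∧ ∀ n, N ≤ n → a.x n ∈ K}
  one_mem' := ⟨0, le_rfl, fun _ _ => rfl, fun _ _ => K.one_mem⟩
  mul_mem' := by
    rintro a b ⟨N, hN, h1, h2⟩ ⟨M, hM, h3, h4⟩
    have e1 := abs_nonneg a.j
    have e2 := le_abs_self a.j
    have e3 := neg_abs_le a.j
    refine ⟨N + M + |a.j|, by linarith, fun n hn => ?_, fun n hn => ?_⟩
    · rw [mul_x, h1 n (by linarith), h3 _ (by linarith), one_mul]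
    · rw [mul_x]
      exact K.mul_mem (h2 n (by linarith)) (h4 _ (by linarith))
  inv_mem' := by
    rintro a ⟨N, hN, h1, h2⟩
    have e1 := abs_nonneg a.j
    have e2 := le_abs_self a.j
    have e3 := neg_abs_le a.j
    refine ⟨N + |a.j|, by linarith, fun n hn => ?_, fun n hn => ?_⟩
    · rw [inv_x, h1 _ (by linarith), inv_one]
    · rw [inv_x]
      exact K.inv_mem (h2 _ (by linarith))

/-- Commutative subgroups. -/
class Ab (K : Subgroup W) : Prop where
  comm : ∀ a ∈ K, ∀ b ∈ K, a * b = b * a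

variable (K : Subgroup W)

/-- The group. -/
abbrev G : Type := ↥(Gr K)

/-- The basic neighbourhoods of the identity. -/
def U (m : ℤ) : Subgroup (G K) where
  carrier := {a | a.1.j = 0 ∧ ∀ n, a.1.x n ∈ K ∧ (n < m → a.1.x n = 1)}
  one_mem' := ⟨rfl, fun _ => ⟨K.one_mem, fun _ => rfl⟩⟩
  mul_mem' := by
    rintro a b ⟨h1, h2⟩ ⟨h3, h4⟩
    refine ⟨?_, fun n => ?_⟩
    · show a.1.j + b.1.j = 0
      rw [h1, h3, add_zero]
    · show a.1.x n * b.1.x (n - a.1.j) ∈ K ∧ (n < m → a.1.x n * b.1.x (n - a.1.j) = 1)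
      rw [h1, sub_zero]
      exact ⟨K.mul_mem (h2 n).1 (h4 n).1, fun hn => by rw [(h2 n).2 hn, (h4 n).2 hn, one_mul]⟩
  inv_mem' := by
    rintro a ⟨h1, h2⟩
    refine ⟨?_, fun n => ?_⟩
    · show -a.1.j = 0
      rw [h1, neg_zero]
    · show (a.1.x (n + a.1.j))⁻¹ ∈ K ∧ (n < m → (a.1.x (n + a.1.j))⁻¹ = 1)
      rw [h1, add_zero]
      exact ⟨K.inv_mem (h2 n).1, fun hn => by rw [(h2 n).2 hn, inv_one]⟩

theorem mem_U {m : ℤ} {a : G K} :
    a ∈ U K m ↔ a.1.j = 0 ∧ ∀ n, a.1.x n ∈ K ∧ (n < m → a.1.x n = 1) := Iff.rfl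

theorem U_anti {m m' : ℤ} (h : m ≤ m') : U K m' ≤ U K m := fun _ ha =>
  ⟨ha.1, fun n => ⟨(ha.2 n).1, fun hn => (ha.2 n).2 (lt_of_lt_of_le hn h)⟩⟩

theorem conj_x (a b : G K) (hb : b.1.j = 0) (n : ℤ) :
    (a * b * a⁻¹).1.x n = a.1.x n * b.1.x (n - a.1.j) * (a.1.x n)⁻¹ := by
  show a.1.x n * b.1.x (n - a.1.j) * (a.1.x (n - (a.1.j + b.1.j) + a.1.j))⁻¹ = _
  rw [hb]
  congr 3
  ring

theorem conj_j (a b : G K) (hb : b.1.j = 0) : (a * b * a⁻¹).1.j = 0 := by
  show a.1.j + b.1.j + -a.1.j = 0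
  rw [hb]; ring

/-- The neighbourhood basis. -/
@[instance_reducible] def B [Ab K] : GroupFilterBasis (G K) where
  sets := {S | ∃ m : ℤ, S = (U K m : Set (G K))}
  nonempty := ⟨_, 0, rfl⟩
  inter_sets := by
    rintro S T ⟨m, rfl⟩ ⟨m', rfl⟩
    exact ⟨_, ⟨max m m', rfl⟩, fun a ha =>
      ⟨U_anti K (le_max_left _ _) ha, U_anti K (le_max_right _ _) ha⟩⟩
  one' := by
    rintro S ⟨m, rfl⟩
    exact (U K m).one_mem
  mul' := by
    rintro S ⟨m, rfl⟩
    refine ⟨_, ⟨m, rfl⟩, ?_⟩
    rintro a ⟨b, hb, c, hc, rfl⟩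
    exact (U K m).mul_mem hb hc
  inv' := by
    rintro S ⟨m, rfl⟩
    exact ⟨_, ⟨m, rfl⟩, fun a ha => (U K m).inv_mem ha⟩
  conj' := by
    rintro a S ⟨m, rfl⟩
    obtain ⟨N, hN, h1, h2⟩ := a.2
    refine ⟨_, ⟨max (N - a.1.j) (m - a.1.j), rfl⟩, ?_⟩
    rintro b ⟨hb1, hb2⟩
    refine ⟨conj_j K a b hb1, fun n => ?_⟩
    rw [conj_x K a b hb1]
    by_cases hn : n - a.1.j < max (N - a.1.j) (m - a.1.j)
    · rw [(hb2 _).2 hn, mul_one, mul_inv_cancel]
      exact ⟨K.one_mem, fun _ => rfl⟩
    · push Not at hn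
      have hn1 : N ≤ n := by
        have := le_trans (le_max_left _ _) hn
        linarith
      have hn2 : m ≤ n := by
        have := le_trans (le_max_right _ _) hn
        linarith
      have hx := h2 n hn1
      have hy := (hb2 (n - a.1.j)).1
      rw [Ab.comm _ hx _ hy, mul_inv_cancel_right]
      exact ⟨hy, fun h => absurd h (not_lt.2 hn2)⟩

instance [Ab K] : TopologicalSpace (G K) := (B K).topology
instance [Ab K] : IsTopologicalGroup (G K) := (B K).isTopologicalGroup

variable [Ab K]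

theorem mem_nhds_one {S : Set (G K)} : S ∈ 𝓝 (1 : G K) ↔ ∃ m, (U K m : Set (G K)) ⊆ S := by
  rw [(B K).nhds_one_hasBasis.mem_iff]
  constructor
  · rintro ⟨V, ⟨m, rfl⟩, h⟩
    exact ⟨m, h⟩
  · rintro ⟨m, h⟩
    exact ⟨_, ⟨m, rfl⟩, h⟩

theorem mem_nhds {a : G K} (m : ℤ) : {b : G K | a⁻¹ * b ∈ U K m} ∈ 𝓝 a := by
  have h1 : (U K m : Set (G K)) ∈ 𝓝 (a⁻¹ * a) := by
    rw [inv_mul_cancel]
    exact (mem_nhds_one K).2 ⟨m, Set.Subset.refl _⟩
  exact (continuous_const_mul a⁻¹).continuousAt.preimage_mem_nhds h1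

omit [Ab K] in
theorem eq_mul {a b : G K} : b = a * (a⁻¹ * b) := by group

theorem isOpen_x (n : ℤ) (S : Set W) : IsOpen {a : G K | a.1.x n ∈ S} := by
  rw [isOpen_iff_mem_nhds]
  intro a ha
  filter_upwards [mem_nhds K (a := a) (n - a.1.j + 1)] with b hb
  show b.1.x n ∈ S
  rw [eq_mul K (a := a) (b := b)]
  show a.1.x n * (a⁻¹ * b).1.x (n - a.1.j) ∈ S
  rw [(hb.2 (n - a.1.j)).2 (by linarith), mul_one]
  exact ha

theorem isClosed_x (n : ℤ) (S : Set W) : IsClosed {a : G K | a.1.x n ∈ S} :=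
  ⟨isOpen_x K n Sᶜ⟩

theorem isClosed_j : IsClosed {a : G K | a.1.j = 0} := by
  refine ⟨?_⟩
  rw [isOpen_iff_mem_nhds]
  intro a ha
  filter_upwards [mem_nhds K (a := a) 0] with b hb hb'
  apply ha
  show a.1.j = 0
  have h1 : b.1.j = a.1.j + (a⁻¹ * b).1.j := by
    conv_lhs => rw [eq_mul K (a := a) (b := b)]
    rfl
  rw [hb.1, add_zero] at h1
  rw [← h1]
  exact hb'

theorem t2 : T2Space (G K) := by
  refine IsTopologicalGroup.t2Space_of_one_sep ?_
  intro a ha
  by_cases hj : a.1.j = 0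
  · have : ∃ n, a.1.x n ≠ 1 := by
      by_contra h
      push Not at h
      exact ha (Subtype.ext (Sh.ext (funext h) hj))
    obtain ⟨n, hn⟩ := this
    exact ⟨_, (mem_nhds_one K).2 ⟨n + 1, Set.Subset.refl _⟩, fun h => hn ((h.2 n).2 (by linarith))⟩
  · exact ⟨_, (mem_nhds_one K).2 ⟨0, Set.Subset.refl _⟩, fun h => hj h.1⟩

/-- The parametrisation of `U 0`. -/
def par : (ℕ → K) →* G K where
  toFun s := ⟨⟨fun n => if 0 ≤ n then (s n.toNat : W) else 1, 0⟩, 0, le_rfl,
    fun n hn => by
      show (if 0 ≤ n then (s n.toNat : W) else 1) = 1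
      rw [if_neg (by linarith)],
    fun n hn => by
      show (if 0 ≤ n then (s n.toNat : W) else 1) ∈ K
      rw [if_pos hn]; exact (s n.toNat).2⟩
  map_one' := by
    apply Subtype.ext
    apply Sh.ext
    · funext n
      show (if 0 ≤ n then ((1 : K) : W) else 1) = 1
      split_ifs <;> rfl
    · rfl
  map_mul' s s' := by
    apply Subtype.ext
    apply Sh.ext
    · funext n
      show (if 0 ≤ n then ((s n.toNat * s' n.toNat : K) : W) else 1) =
        (if 0 ≤ n then (s n.toNat : W) else 1) * (if 0 ≤ n - 0 then (s' (n - 0).toNat : W) else 1)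
      rw [sub_zero]
      split_ifs
      · rfl
      · rw [one_mul]
    · show (0 : ℤ) = 0 + 0
      rfl

theorem isCompact_U [Finite K] : IsCompact (U K 0 : Set (G K)) := by
  let _ : TopologicalSpace K := ⊥
  have _ : DiscreteTopology K := ⟨rfl⟩
  have hc : Continuous (par K) := by
    refine continuous_of_continuousAt_one _ ?_
    intro V hV
    rw [map_one, mem_nhds_one] at hV
    obtain ⟨m, hm⟩ := hV
    have h1 : (⋂ i ∈ Finset.range m.toNat, {s : ℕ → K | s i = 1}) ∈ 𝓝 (1 : ℕ → K) := by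
      rw [Filter.biInter_finset_mem]
      intro i _
      have hci : Continuous (fun s : ℕ → K => s i) := continuous_apply i
      have h2 : IsOpen ((fun s : ℕ → K => s i) ⁻¹' {1}) :=
        (isOpen_discrete ({1} : Set K)).preimage hci
      exact h2.mem_nhds rfl
    show (par K) ⁻¹' V ∈ 𝓝 (1 : ℕ → K)
    filter_upwards [h1] with s hs
    apply hm
    refine ⟨rfl, fun n => ?_⟩
    show (if 0 ≤ n then (s n.toNat : W) else 1) ∈ K ∧ (n < m →
      (if 0 ≤ n then (s n.toNat : W) else 1) = 1)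
    split_ifs with h0
    · refine ⟨(s n.toNat).2, fun hn => ?_⟩
      have h3 : s n.toNat = 1 := by
        have := Set.mem_iInter₂.1 hs n.toNat (Finset.mem_range.2 (by omega))
        exact this
      rw [h3]; rfl
    · exact ⟨K.one_mem, fun _ => rfl⟩
  have hr : Set.range (par K) = (U K 0 : Set (G K)) := by
    ext a
    constructor
    · rintro ⟨s, rfl⟩
      refine ⟨rfl, fun n => ?_⟩
      show (if 0 ≤ n then (s n.toNat : W) else 1) ∈ K ∧ (n < 0 →
        (if 0 ≤ n then (s n.toNat : W) else 1) = 1)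
      split_ifs with h0
      · exact ⟨(s n.toNat).2, fun hn => absurd hn (not_lt.2 h0)⟩
      · exact ⟨K.one_mem, fun _ => rfl⟩
    · rintro ⟨h1, h2⟩
      refine ⟨fun i => ⟨a.1.x i, (h2 i).1⟩, ?_⟩
      apply Subtype.ext
      apply Sh.ext
      · funext n
        show (if 0 ≤ n then a.1.x (n.toNat : ℤ) else 1) = a.1.x n
        split_ifs with h0
        · rw [Int.toNat_of_nonneg h0]
        · exact ((h2 n).2 (not_le.1 h0)).symm
      · exact h1.symm
  rw [← hr]
  exact isCompact_range hc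

theorem locallyCompact [Finite K] : LocallyCompactSpace (G K) :=
  (isCompact_U K).locallyCompactSpace_of_mem_nhds_of_group (x := 1)
    ((mem_nhds_one K).2 ⟨0, Set.Subset.refl _⟩)

omit [Ab K]

/-- The embedding of `W` at place `n`. -/
def emb (n : ℤ) : W →* G K where
  toFun w := ⟨⟨fun i => if i = n then w else 1, 0⟩, |n| + 1, by positivity,
    fun i hi => by
      have := neg_abs_le n
      show (if i = n then w else 1) = 1
      rw [if_neg (by rintro rfl; linarith)],
    fun i hi => by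
      have := le_abs_self n
      show (if i = n then w else 1) ∈ K
      rw [if_neg (by rintro rfl; linarith)]
      exact K.one_mem⟩
  map_one' := by
    apply Subtype.ext
    apply Sh.ext
    · funext i
      show (if i = n then (1 : W) else 1) = 1
      split_ifs <;> rfl
    · rfl
  map_mul' a b := by
    apply Subtype.ext
    apply Sh.ext
    · funext i
      show (if i = n then a * b else 1) = (if i = n then a else 1) * (if i - 0 = n then b else 1)
      rw [sub_zero]
      split_ifs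
      · rfl
      · rw [one_mul]
    · show (0 : ℤ) = 0 + 0
      rfl

theorem emb_x (n i : ℤ) (w : W) : (emb K n w).1.x i = if i = n then w else 1 := rfl
theorem emb_x_self (n : ℤ) (w : W) : (emb K n w).1.x n = w := by rw [emb_x, if_pos rfl]
theorem emb_j (n : ℤ) (w : W) : (emb K n w).1.j = 0 := rfl

theorem emb_injective (n : ℤ) {w w' : W} (h : emb K n w = emb K n w') : w = w' := by
  have := congrArg (fun a : G K => a.1.x n) h
  simpa only [emb_x_self] using this

/-- The shifts. -/
def sh (i : ℤ) : G K := ⟨⟨fun _ => 1, i⟩, 0, le_rfl, fun _ _ => rfl, fun _ _ => K.one_mem⟩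

theorem sh_add (i j : ℤ) : sh K (i + j) = sh K i * sh K j := by
  apply Subtype.ext
  apply Sh.ext
  · funext n
    show (1 : W) = 1 * 1
    rw [one_mul]
  · rfl

theorem sh_zero : sh K 0 = 1 := rfl

theorem conj_emb (a : G K) (n : ℤ) (w : W) : a * emb K n w * a⁻¹ =
    emb K (n + a.1.j) (a.1.x (n + a.1.j) * w * (a.1.x (n + a.1.j))⁻¹) := by
  apply Subtype.ext
  apply Sh.ext
  · funext i
    rw [conj_x K _ _ (emb_j K n w), emb_x, emb_x]
    by_cases h : i = n + a.1.j
    · subst h
      rw [if_pos rfl, if_pos (by ring)]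
    · rw [if_neg h, if_neg (fun h' => h (by linarith)), mul_one, mul_inv_cancel]
  · rw [conj_j K _ _ (emb_j K n w)]
    rfl

theorem conj_sh (i n : ℤ) (w : W) : sh K i * emb K n w * (sh K i)⁻¹ = emb K (n + i) w := by
  rw [conj_emb]
  show emb K (n + i) (1 * w * 1⁻¹) = _
  rw [one_mul, inv_one, mul_one]

theorem fin_supp {M : Subgroup (G K)} (hM : ∀ n w, emb K n w ∈ M) (s : Finset ℤ) :
    ∀ a : G K, a.1.j = 0 → (∀ n, n ∉ s → a.1.x n = 1) → a ∈ M := by
  classical
  induction s using Finset.induction_on with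
  | empty =>
    intro a h1 h2
    have : a = 1 := Subtype.ext (Sh.ext (funext fun n => h2 n (by simp)) h1)
    rw [this]; exact M.one_mem
  | insert n s hn ih =>
    intro a h1 h2
    have h3 : a = emb K n (a.1.x n) * ((emb K n (a.1.x n))⁻¹ * a) := by group
    rw [h3]
    refine M.mul_mem (hM _ _) (ih _ ?_ ?_)
    · show -0 + a.1.j = 0
      rw [h1]; rfl
    · intro i hi
      rw [← map_inv]
      show (if i = n then (a.1.x n)⁻¹ else 1) * a.1.x (i - 0) = 1
      rw [sub_zero]
      by_cases hin : i = n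
      · subst hin
        rw [if_pos rfl, inv_mul_cancel]
      · rw [if_neg hin, one_mul]
        exact h2 i (by simp [hin, hi])

theorem decomp {M : Subgroup (G K)} (hM : ∀ n w, emb K n w ∈ M) (a : G K) (ha : a.1.j = 0)
    (m0 : ℤ) : ∃ m, m0 ≤ m ∧ ∃ b ∈ M, ∃ u ∈ U K m, a = b * u := by
  obtain ⟨N, hN, h1, h2⟩ := a.2
  refine ⟨max m0 N, le_max_left _ _, ?_⟩
  set m := max m0 N with hm
  have hNm : N ≤ m := le_max_right _ _
  let u : G K := ⟨⟨fun n => if n < m then 1 else a.1.x n, 0⟩, N, hN, fun n hn => by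
      show (if n < m then 1 else a.1.x n) = 1
      rw [if_pos (by linarith)], fun n hn => by
      show (if n < m then 1 else a.1.x n) ∈ K
      split_ifs
      · exact K.one_mem
      · exact h2 n hn⟩
  have hu : u ∈ U K m := by
    refine ⟨rfl, fun n => ?_⟩
    show (if n < m then 1 else a.1.x n) ∈ K ∧ (n < m → (if n < m then 1 else a.1.x n) = 1)
    by_cases hn : n < m
    · rw [if_pos hn]; exact ⟨K.one_mem, fun _ => rfl⟩
    · rw [if_neg hn]
      exact ⟨h2 n (by linarith), fun h => absurd h hn⟩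
  refine ⟨a * u⁻¹, ?_, u, hu, by group⟩
  refine fin_supp K hM (Finset.Ico (-N) m) _ ?_ ?_
  · show a.1.j + -0 = 0
    rw [ha]; rfl
  · intro n hn
    show a.1.x n * ((if n - a.1.j + 0 < m then 1 else a.1.x (n - a.1.j + 0)))⁻¹ = 1
    rw [ha, sub_zero, add_zero]
    by_cases h : n < m
    · rw [if_pos h]
      have : n < -N := by
        by_contra hc
        exact hn (Finset.mem_Ico.2 ⟨by linarith, h⟩)
      rw [h1 n this, inv_one, one_mul]
    · rw [if_neg h, mul_inv_cancel]

/-- Reduction to shift zero. -/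
theorem mul_sh_j (a : G K) : (a * (sh K a.1.j)⁻¹).1.j = 0 := by
  show a.1.j + -a.1.j = 0
  ring

end

section Main

variable {W : Type} [Group W] {Y : Subgroup W} {k : W}

theorem Y_not_normal (h : GoodW W Y k) : ¬ Y.Normal := by
  intro hn
  have hY : Y = ⊥ := by rw [← h.core, Subgroup.normalCore_eq_self]
  obtain ⟨Q, hQ, hQ1, hQ2⟩ := h.nomin ⊤ inferInstance (fun ht => h.coatom.1 (hY.trans ht.symm))
  have hlt : Y < Q := by rw [hY]; exact bot_lt_iff_ne_bot.2 hQ1
  exact hQ2.ne (h.coatom.2 Q hlt)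

theorem center_trivial (h : GoodW W Y k) {z : W} (hz : ∀ w, z * w = w * z) : z = 1 := by
  by_contra hz1
  -- `zpowers z` is normal, hence not contained in `Y`
  have hzY : z ∉ Y := by
    intro hzY
    have : z ∈ Y.normalCore := fun g => by
      rw [← hz g, mul_inv_cancel_right]; exact hzY
    rw [h.core, Subgroup.mem_bot] at this
    exact hz1 this
  apply Y_not_normal h
  have h1 : Y ≤ Subgroup.normalizer (Y : Set W) := Subgroup.le_normalizer
  have h2 : z ∈ Subgroup.normalizer (Y : Set W) := by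
    rw [Subgroup.mem_normalizer_iff]
    intro y
    rw [hz y, mul_inv_cancel_right]
  have h3 : Y < Subgroup.normalizer (Y : Set W) := lt_of_le_of_ne h1 (fun he => hzY (he ▸ h2))
  exact Subgroup.normalizer_eq_top_iff.1 (h.coatom.2 _ h3)

/-- A nontrivial normal subgroup of `G` meets some copy of `W` nontrivially. -/
theorem normal_meets (h : GoodW W Y k) (K : Subgroup W) {N : Subgroup (G K)} (hN : N.Normal)
    (hne : N ≠ ⊥) : ∃ n w, w ≠ 1 ∧ emb K n w ∈ N := by
  obtain ⟨⟨a, haN⟩, ha⟩ := Subgroup.ne_bot_iff_exists_ne_one.1 hne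
  have ha1 : a ≠ 1 := fun h => ha (Subtype.ext h)
  -- reduction to shift zero
  have key : ∃ b ∈ N, b.1.j = 0 ∧ b ≠ 1 := by
    by_cases hj : a.1.j = 0
    · exact ⟨a, haN, hj, ha1⟩
    · have hW : ∃ w : W, w ≠ 1 := by
        by_contra hc
        push Not at hc
        exact h.kY (by rw [hc k]; exact Y.one_mem)
      obtain ⟨w, hw⟩ := hW
      refine ⟨a * emb K 0 w * a⁻¹ * (emb K 0 w)⁻¹, ?_, ?_, ?_⟩
      · have : a * emb K 0 w * a⁻¹ * (emb K 0 w)⁻¹ =
            a * (emb K 0 w * a⁻¹ * (emb K 0 w)⁻¹) := by group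
        rw [this]
        exact N.mul_mem haN (hN.conj_mem _ (N.inv_mem haN) _)
      · rw [conj_emb]
        show (0 : ℤ) + -0 = 0
        rfl
      · intro he
        rw [mul_inv_eq_one, conj_emb] at he
        have h2 := congrArg (fun b : G K => b.1.x 0) he
        simp only [emb_x_self] at h2
        rw [emb_x, if_neg (by omega)] at h2
        exact hw h2.symm
  obtain ⟨b, hbN, hbj, hb1⟩ := key
  have hx : ∃ n, b.1.x n ≠ 1 := by
    by_contra hc
    push Not at hc
    exact hb1 (Subtype.ext (Sh.ext (funext hc) hbj))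
  obtain ⟨n, hn⟩ := hx
  have hw : ∃ w, b.1.x n * w ≠ w * b.1.x n := by
    by_contra hc
    push Not at hc
    exact hn (center_trivial h hc)
  obtain ⟨w, hw⟩ := hw
  refine ⟨n, b.1.x n * w * (b.1.x n)⁻¹ * w⁻¹, ?_, ?_⟩
  · intro he
    rw [mul_inv_eq_one, mul_inv_eq_iff_eq_mul] at he
    exact hw he
  · have h1 : emb K n (b.1.x n * w * (b.1.x n)⁻¹ * w⁻¹) =
        b * (emb K n w * b⁻¹ * (emb K n w)⁻¹) := by
      have h2 : b * (emb K n w * b⁻¹ * (emb K n w)⁻¹) = b * emb K n w * b⁻¹ * (emb K n w)⁻¹ := by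
        group
      rw [h2, conj_emb, hbj, add_zero, ← map_inv, ← map_mul]
    rw [h1]
    exact N.mul_mem hbN (hN.conj_mem _ (N.inv_mem hbN) _)

/-- The subgroup `H` of the sequences in `Y`, extended by the shift. -/
def Hs (K Y : Subgroup W) : Subgroup (G K) where
  carrier := {a | ∀ n, a.1.x n ∈ Y}
  one_mem' := fun _ => Y.one_mem
  mul_mem' := fun {_ _} ha hb n => Y.mul_mem (ha n) (hb _)
  inv_mem' := fun {_} ha _ => Y.inv_mem (ha _)

theorem faithful (h : GoodW W Y k) (K : Subgroup W) : Faithful (Hs K Y) := by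
  intro x hx
  by_contra hx1
  have hne : (Hs K Y).normalCore ≠ ⊥ := by
    intro hb
    have : x ∈ (Hs K Y).normalCore := hx
    rw [hb, Subgroup.mem_bot] at this
    exact hx1 this
  obtain ⟨n, w, hw, hwN⟩ := normal_meets h K (Subgroup.normalCore_normal _) hne
  apply hw
  have : w ∈ Y.normalCore := by
    intro g
    have h1 : emb K n g * emb K n w * (emb K n g)⁻¹ ∈ Hs K Y := hwN (emb K n g)
    rw [← map_inv, ← map_mul, ← map_mul] at h1
    have h2 := h1 n
    rwa [emb_x_self] at h2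
  rwa [h.core, Subgroup.mem_bot] at this

theorem comp_gen (h : GoodW W Y k) (K : Subgroup W) [Ab K] [Finite K] :
    CompactlyGenerated (G K) := by
  obtain ⟨S, hS, hSt⟩ := h.fg
  refine ⟨(U K 0 : Set (G K)) ∪ ({sh K 1} ∪ emb K 0 '' S),
    (isCompact_U K).union (isCompact_singleton.union (hS.image _).isCompact), ?_⟩
  set M := Subgroup.closure ((U K 0 : Set (G K)) ∪ ({sh K 1} ∪ emb K 0 '' S)) with hM
  have hU : U K 0 ≤ M := fun a ha => Subgroup.subset_closure (Or.inl ha)
  have hs1 : sh K 1 ∈ M := Subgroup.subset_closure (Or.inr (Or.inl rfl))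
  have hs : ∀ i, sh K i ∈ M := by
    intro i
    induction i using Int.induction_on with
    | zero => rw [sh_zero]; exact M.one_mem
    | succ i ih => rw [sh_add]; exact M.mul_mem ih hs1
    | pred i ih =>
      have : sh K (-(i : ℤ) - 1) = sh K (-(i : ℤ)) * (sh K 1)⁻¹ := by
        rw [eq_mul_inv_iff_mul_eq, ← sh_add]
        congr 1
        ring
      rw [this]; exact M.mul_mem ih (M.inv_mem hs1)
  have he0 : ∀ w, emb K 0 w ∈ M := by
    intro w
    have h1 : (⊤ : Subgroup W) ≤ M.comap (emb K 0) := by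
      rw [← hSt, Subgroup.closure_le]
      intro s hs
      exact Subgroup.subset_closure (Or.inr (Or.inr ⟨s, hs, rfl⟩))
    exact h1 (Subgroup.mem_top w)
  have he : ∀ n w, emb K n w ∈ M := by
    intro n w
    have := conj_sh K n 0 w
    rw [zero_add] at this
    rw [← this]
    exact M.mul_mem (M.mul_mem (hs _) (he0 _)) (M.inv_mem (hs _))
  rw [eq_top_iff]
  intro a _
  have h1 : a * (sh K a.1.j)⁻¹ ∈ M := by
    obtain ⟨m, hm, b, hb, u, hu, hab⟩ := decomp K he _ (mul_sh_j K a) 0
    rw [hab]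
    exact M.mul_mem hb (hU (U_anti K hm hu))
  have h2 := M.mul_mem h1 (hs a.1.j)
  rwa [inv_mul_cancel_right] at h2

theorem irreducible (h : GoodW W Y k) (K : Subgroup W) [Ab K] :
    IrreducibleCosetSpace (Hs K Y) := by
  refine ⟨?_, ?_, ?_⟩
  · have : ((Hs K Y : Subgroup (G K)) : Set (G K)) = ⋂ n, {a : G K | a.1.x n ∈ (Y : Set W)} := by
      ext a
      simp only [Set.mem_iInter]
      exact Iff.rfl
    rw [this]
    exact isClosed_iInter fun n => isClosed_x K n _
  · intro ht
    have h1 : emb K 0 k ∈ Hs K Y := by rw [ht]; exact Subgroup.mem_top _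
    have h2 := h1 0
    rw [emb_x_self] at h2
    exact h.kY h2
  · intro M hMc hM
    by_cases hle : M ≤ Hs K Y
    · exact Or.inl (le_antisymm hle hM)
    right
    obtain ⟨a, haM, haH⟩ := SetLike.not_le_iff_exists.1 hle
    have hs : ∀ i, sh K i ∈ M := fun i => hM (fun n => Y.one_mem)
    set c := a * (sh K a.1.j)⁻¹ with hc
    have hcM : c ∈ M := M.mul_mem haM (M.inv_mem (hs _))
    have hcj : c.1.j = 0 := mul_sh_j K a
    have hcx : ∃ n, c.1.x n ∉ Y := by
      by_contra hcon
      push Not at hcon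
      apply haH
      have h1 : a = c * sh K a.1.j := by rw [hc]; group
      rw [h1]
      exact (Hs K Y).mul_mem hcon (fun n => Y.one_mem)
    obtain ⟨n, hn⟩ := hcx
    have hemb : ∀ y ∈ Y, emb K n y ∈ M := by
      intro y hy
      apply hM
      intro i
      rw [emb_x]
      split_ifs
      · exact hy
      · exact Y.one_mem
    have hYQ : Y ≤ M.comap (emb K n) := fun y hy => hemb y hy
    have hQ : M.comap (emb K n) = ⊤ := by
      rcases eq_or_lt_of_le hYQ with heq | hlt
      · exfalso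
        have e1 : ∀ y ∈ Y, c.1.x n * y * (c.1.x n)⁻¹ ∈ Y := by
          intro y hy
          rw [heq]
          show emb K n _ ∈ M
          have h1 := conj_emb K c n y
          rw [hcj, add_zero] at h1
          rw [← h1]
          exact M.mul_mem (M.mul_mem hcM (hemb y hy)) (M.inv_mem hcM)
        have e2 : ∀ y ∈ Y, (c.1.x n)⁻¹ * y * c.1.x n ∈ Y := by
          intro y hy
          rw [heq]
          show emb K n _ ∈ M
          have h1 := conj_emb K c⁻¹ n y
          have h2 : (c⁻¹).1.j = 0 := by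
            show -c.1.j = 0
            rw [hcj, neg_zero]
          have h3 : (c⁻¹).1.x n = (c.1.x n)⁻¹ := by
            show (c.1.x (n + c.1.j))⁻¹ = _
            rw [hcj, add_zero]
          rw [h2, add_zero, h3, inv_inv, inv_inv] at h1
          rw [← h1]
          exact M.mul_mem (M.mul_mem (M.inv_mem hcM) (hemb y hy)) hcM
        have h2 : c.1.x n ∈ Subgroup.normalizer (Y : Set W) := by
          rw [Subgroup.mem_normalizer_iff]
          intro y
          refine ⟨e1 y, fun hy => ?_⟩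
          have := e2 _ hy
          have h3 : (c.1.x n)⁻¹ * (c.1.x n * y * (c.1.x n)⁻¹) * c.1.x n = y := by group
          rwa [h3] at this
        have h3 : Y < Subgroup.normalizer (Y : Set W) :=
          lt_of_le_of_ne Subgroup.le_normalizer (fun he => hn (he ▸ h2))
        exact Y_not_normal h (Subgroup.normalizer_eq_top_iff.1 (h.coatom.2 _ h3))
      · exact h.coatom.2 _ hlt
    have he : ∀ m w, emb K m w ∈ M := by
      intro m w
      have h1 : emb K n w ∈ M := by
        have : w ∈ M.comap (emb K n) := by rw [hQ]; exact Subgroup.mem_top _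
        exact this
      have h2 := conj_sh K (m - n) n w
      rw [add_sub_cancel] at h2
      rw [← h2]
      exact M.mul_mem (M.mul_mem (hs _) h1) (M.inv_mem (hs _))
    rw [eq_top_iff]
    intro b _
    have h1 : b * (sh K b.1.j)⁻¹ ∈ M := by
      set d := b * (sh K b.1.j)⁻¹ with hd
      have hcl : d ∈ closure (M : Set (G K)) := by
        rw [mem_closure_iff_nhds]
        intro V hV
        have hV1 : (fun u => d * u) ⁻¹' V ∈ 𝓝 (1 : G K) := by
          refine (continuous_const_mul d).continuousAt.preimage_mem_nhds ?_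
          rw [mul_one]; exact hV
        obtain ⟨m, hm⟩ := (mem_nhds_one K).1 hV1
        obtain ⟨m', hmm', b', hb', u, hu, hab⟩ := decomp K he d (mul_sh_j K b) m
        refine ⟨b', ?_, hb'⟩
        have h2 : b' = d * u⁻¹ := by rw [hab]; group
        rw [h2]
        exact hm ((U K m).inv_mem (U_anti K hmm' hu))
      rwa [hMc.closure_eq] at hcl
    have h2 := M.mul_mem h1 (hs b.1.j)
    rwa [inv_mul_cancel_right] at h2

theorem nondiscrete (h : GoodW W Y k) (K : Subgroup W) (hk : k ∈ K) [Ab K] :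
    ¬ DiscreteTopology (G K ⧸ Hs K Y) := by
  rw [QuotientGroup.discreteTopology_iff]
  intro ho
  obtain ⟨m, hm⟩ := (mem_nhds_one K).1 (ho.mem_nhds (Hs K Y).one_mem)
  have h1 : emb K m k ∈ U K m := by
    refine ⟨rfl, fun n => ?_⟩
    rw [emb_x]
    split_ifs with hn
    · exact ⟨hk, fun h => by omega⟩
    · exact ⟨K.one_mem, fun _ => rfl⟩
  have h2 := hm h1 m
  rw [emb_x_self] at h2
  exact h.kY h2

theorem no_minimal (h : GoodW W Y k) (K : Subgroup W) [Ab K] (M : Subgroup (G K)) :
    ¬ IsMinimalClosedNormal M := by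
  rintro ⟨hMn, hMc, hMne, hmin⟩
  obtain ⟨n, w, hw, hwM⟩ := normal_meets h K hMn hMne
  have hQ : (M.comap (emb K n)) ≠ ⊥ := by
    intro hb
    have : w ∈ M.comap (emb K n) := hwM
    rw [hb, Subgroup.mem_bot] at this
    exact hw this
  obtain ⟨Q, hQn, hQne, hQlt⟩ := h.nomin _ (hMn.comap _) hQ
  -- the sequences in `Q`
  let L : Subgroup (G K) :=
    { carrier := {a | a.1.j = 0 ∧ ∀ i, a.1.x i ∈ Q}
      one_mem' := ⟨rfl, fun _ => Q.one_mem⟩
      mul_mem' := by
        rintro a b ⟨h1, h2⟩ ⟨h3, h4⟩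
        refine ⟨?_, fun i => Q.mul_mem (h2 i) (h4 _)⟩
        show a.1.j + b.1.j = 0
        rw [h1, h3, add_zero]
      inv_mem' := by
        rintro a ⟨h1, h2⟩
        refine ⟨?_, fun i => Q.inv_mem (h2 _)⟩
        show -a.1.j = 0
        rw [h1, neg_zero] }
  have hLn : L.Normal := by
    refine ⟨?_⟩
    rintro b ⟨h1, h2⟩ a
    refine ⟨conj_j K a b h1, fun i => ?_⟩
    rw [conj_x K a b h1]
    exact hQn.conj_mem _ (h2 _) _
  have hLc : IsClosed (L : Set (G K)) := by
    have : (L : Set (G K)) = {a : G K | a.1.j = 0} ∩ ⋂ i, {a : G K | a.1.x i ∈ (Q : Set W)} := by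
      ext a
      simp only [Set.mem_inter_iff, Set.mem_iInter]
      exact Iff.rfl
    rw [this]
    exact (isClosed_j K).inter (isClosed_iInter fun i => isClosed_x K i _)
  obtain ⟨hQle, q, hq1, hq2⟩ := SetLike.lt_iff_le_and_exists.1 hQlt
  have hembL : ∀ v ∈ Q, emb K n v ∈ L := by
    intro v hv
    refine ⟨rfl, fun i => ?_⟩
    rw [emb_x]
    split_ifs
    · exact hv
    · exact Q.one_mem
  rcases hmin (L ⊓ M) (by have := hLn; have := hMn; infer_instance)
    (by rw [Subgroup.coe_inf]; exact hLc.inter hMc) inf_le_right with hbot | heq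
  · obtain ⟨⟨v, hv⟩, hv1⟩ := Subgroup.ne_bot_iff_exists_ne_one.1 hQne
    have h1 : emb K n v ∈ L ⊓ M := ⟨hembL v hv, hQle hv⟩
    rw [hbot, Subgroup.mem_bot] at h1
    apply hv1
    apply Subtype.ext
    have h2 : emb K n v = emb K n 1 := by rw [h1, map_one]
    exact emb_injective K n h2
  · have h1 : emb K n q ∈ L ⊓ M := by rw [heq]; exact hq1
    have h2 := h1.1.2 n
    rw [emb_x_self] at h2
    exact hq2 h2

end Main

/-- There are a compactly generated locally compact group `G` and a subgroup `H` such that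
`G ⧸ H` is a nondiscrete faithful irreducible coset space and `G` has no minimal nontrivial closed
normal subgroup. -/
theorem result : ∃ (G : Type) (_ : Group G) (_ : TopologicalSpace G) (_ : IsTopologicalGroup G)
    (_ : T2Space G) (_ : LocallyCompactSpace G) (H : Subgroup G),
    CompactlyGenerated G ∧ IrreducibleCosetSpace H ∧ Faithful H ∧ ¬ DiscreteTopology (G ⧸ H) ∧
      ∀ M : Subgroup G, ¬ IsMinimalClosedNormal M := by
  obtain ⟨W, _, Y, k, h⟩ := exists_good
  let K : Subgroup W := Subgroup.zpowers k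
  have _ : Ab K := ⟨by
    rintro a ⟨i, rfl⟩ b ⟨j, rfl⟩
    exact (Commute.refl k).zpow_zpow i j⟩
  have _ : Finite K := by
    have hfo : IsOfFinOrder k := isOfFinOrder_iff_pow_eq_one.2 ⟨2, by norm_num, by
      rw [pow_two]; exact h.ksq⟩
    exact hfo.finite_zpowers
  exact ⟨G K, inferInstance, inferInstance, inferInstance, t2 K, locallyCompact K, Hs K Y,
    comp_gen h K, irreducible h K, faithful h K,
    nondiscrete h K (Subgroup.mem_zpowers k), no_minimal h K⟩

end Pool.Agent.Results.MP_db1407_al.NoMinimalNormal
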